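import Pool.Agent.V11304.TM.Approx

/-!
# MP_fcf7f4_nt, Q1: the sum of `T_k(3,3) M_k(3,3) (-3)^(-k)` modulo `p³` and `p⁴` (true)

The sum over `k < n` has the closed form `n (T_{n-1} T_{n+1} - T_n²)/(6 (-3)^(n-1))`. Since
`x (x² + 3x + 3) = (1 + x)³ - 1`, the numbers `T_n` are alternating sums of `C(n,k) C(3k, 2n)`, and one
computes `T_p`, `T_{p-1}` modulo powers of `p` with harmonic sums: `T_p ≡ 3 T_{p-1} (mod p²)` if
`p ≡ 1 (mod 3)`; `T_p ≡ 3ρ (mod p²)` and `T_p - T_{p-1} ≡ 4ρ (mod p³)` if `p ≡ 2 (mod 3)`, where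
`ρ = ∑_{3 ∣ k} (-1)^k C(p,k)` satisfies `ρ² = 3^(p-1)`.
-/

set_option autoImplicit false

namespace Pool.Agent.Results.MP_fcf7f4_nt.Full

open Finset Pool.Agent.V11304.PI Pool.Agent.V11304.TM

/-- the coefficient `T_n(b,c)` of `x^n` in `(x² + b x + c)^n`, given by its explicit formula -/
def T (b c : ℤ) (n : ℕ) : ℤ :=
  ∑ j ∈ range (n / 2 + 1), (n.choose (2 * j) : ℤ) * ((2 * j).choose j : ℤ) * b ^ (n - 2 * j) * c ^ j

/-- the variant `M_n(b,c)` with Catalan numbers -/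
def M (b c : ℤ) (n : ℕ) : ℤ :=
  ∑ j ∈ range (n / 2 + 1), (n.choose (2 * j) : ℤ) * (catalan j : ℤ) * b ^ (n - 2 * j) * c ^ j

/-- the sum `S(p)` -/
def S (p : ℕ) : ℚ := ∑ k ∈ range p, (T 3 3 k : ℚ) * (M 3 3 k : ℚ) / (-3) ^ k

/-- `x ≡ 0 (mod p ^ m)` in the ring of rational numbers with denominator prime to `p` -/
def CongZero (p m : ℕ) (x : ℚ) : Prop := ∃ u : ℚ, ¬ p ∣ u.den ∧ x = (p : ℚ) ^ m * u

section
variable {p : ℕ} [hp : Fact p.Prime]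

lemma S_closed (h3 : 3 < p) : S p = p * ((3 * (2 * p + 1) * (Pool.Agent.V11304.TM.T 3 3 p : ℚ) +
    3 * p * Pool.Agent.V11304.TM.T 3 3 (p - 1)) * Pool.Agent.V11304.TM.T 3 3 (p - 1) - (p + 1) * (Pool.Agent.V11304.TM.T 3 3 p : ℚ) ^ 2) *
      ((6 : ℚ)⁻¹ * ((p : ℚ) + 1)⁻¹ * ((3 : ℚ) ^ (p - 1))⁻¹) := by
  have h1 := closed (p - 1)
  have hpos := hp.out.pos
  rw [Nat.sub_add_cancel hpos] at h1
  have h2 : S p = ∑ k ∈ range p, (Pool.Agent.V11304.TM.T 3 3 k : ℚ) * Pool.Agent.V11304.TM.M 3 3 k / (-3) ^ k := rfl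
  have h4 := T_rec (p - 1)
  rw [show p - 1 + 2 = p + 1 by omega, Nat.sub_add_cancel hpos] at h4
  rw [show p - 1 + 2 = p + 1 by omega] at h1
  have h5 : ((p - 1 : ℕ) : ℚ) = (p : ℚ) - 1 := by
    rw [Nat.cast_sub hpos]
    simp
  rw [h5] at h1 h4
  have h6 : (-3 : ℚ) ^ (p - 1) = 3 ^ (p - 1) := by
    have h7 : Even (p - 1) := by
      have := hp.out.eq_two_or_odd
      exact ⟨(p - 1) / 2, by omega⟩
    exact h7.neg_pow 3
  rw [h6] at h1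
  rw [h2, h1]
  have hp1 : (p : ℚ) + 1 ≠ 0 := by positivity
  have h8 : (Pool.Agent.V11304.TM.T 3 3 (p + 1) : ℚ) = (3 * (2 * p + 1) * (Pool.Agent.V11304.TM.T 3 3 p : ℚ) +
    3 * p * Pool.Agent.V11304.TM.T 3 3 (p - 1)) / (p + 1) := by
    rw [eq_div_iff hp1]
    linarith
  rw [h8]
  have h9 : (3 : ℚ) ^ (p - 1) ≠ 0 := by positivity
  field_simp
  ring

lemma fermat (h3 : 3 < p) : Dv p 1 ((3 : ℚ) ^ (p - 1) - 1) := by
  have h1 : Ok p ((3 : ℚ) ^ (p - 1)) ((3 : ZMod p) ^ (p - 1)) := by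
    have := (ok_nat (p := p) 3).pow (p - 1)
    push_cast at this
    exact this
  have h2 : (3 : ZMod p) ≠ 0 := by
    have := natCast_ne (p := p) (n := 3) (by omega) h3
    push_cast at this
    exact this
  rw [ZMod.pow_card_sub_one_eq_one h2] at h1
  have h4 := h1.sub ok_one
  rw [sub_self] at h4
  exact h4.dv

lemma in_unit (h3 : 3 < p) : In p ((6 : ℚ)⁻¹ * ((p : ℚ) + 1)⁻¹ * ((3 : ℚ) ^ (p - 1))⁻¹) := by
  have e6 : (6 : ℚ)⁻¹ = (2 : ℚ)⁻¹ * (3 : ℚ)⁻¹ := by norm_num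
  have hp1 : In p (((p : ℚ) + 1)⁻¹) := by
    have h1 : Ok p ((p : ℚ) + 1) (0 + 1) := ok_p.add ok_one
    rw [zero_add] at h1
    exact (h1.inv one_ne_zero).is
  rw [e6, ← inv_pow]
  exact (((in_inv_two h3).mul (in_inv_three h3)).mul hp1).mul ((in_inv_three h3).pow _)

lemma case_one (h3 : 3 < p) (hmod : p % 3 = 1) : Dv p 3 (S p - 2 * (p : ℚ) ^ 2) := by
  rw [S_closed h3]
  obtain ⟨⟨e, he, h1⟩, ⟨f, hf, h2⟩⟩ := diff_one h3 hmod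
  obtain ⟨g, hg, h4⟩ := fermat h3
  have hT : (Pool.Agent.V11304.TM.T 3 3 (p - 1) : ℚ) = 1 + p * f := by linarith
  have hTp : (Pool.Agent.V11304.TM.T 3 3 p : ℚ) = 3 * (1 + p * f) + p ^ 2 * e := by rw [← hT]; linarith
  have h5 : (3 : ℚ) ^ (p - 1) = 1 + p * g := by linarith
  have hu : (6 : ℚ) * ((p : ℚ) + 1) * (3 : ℚ) ^ (p - 1) *
      ((6 : ℚ)⁻¹ * ((p : ℚ) + 1)⁻¹ * ((3 : ℚ) ^ (p - 1))⁻¹) = 1 := by
    have hp1 : (p : ℚ) + 1 ≠ 0 := by positivity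
    have h9 : (3 : ℚ) ^ (p - 1) ≠ 0 := by positivity
    field_simp
  have hin := in_unit h3
  set U : ℚ := (6 : ℚ)⁻¹ * ((p : ℚ) + 1)⁻¹ * ((3 : ℚ) ^ (p - 1))⁻¹
  rw [hT, hTp]
  rw [h5] at hu
  have key : (p : ℚ) * ((3 * (2 * p + 1) * (3 * (1 + p * f) + p ^ 2 * e) +
      3 * p * (1 + p * f)) * (1 + p * f) - (p + 1) * (3 * (1 + p * f) + p ^ 2 * e) ^ 2) * U -
      2 * p ^ 2 = (p : ℚ) ^ 3 * ((12 * (2 * f + p * f ^ 2 - g - 1 - p * g) -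
        e * (3 * (1 + p * f) + (p + 1) * p ^ 2 * e)) * U) := by
    have h6 : 2 * (p : ℚ) ^ 2 = 2 * p ^ 2 * (6 * ((p : ℚ) + 1) * (1 + p * g) * U) := by
      rw [hu, mul_one]
    rw [h6]
    ring
  rw [key]
  have inp : In p (p : ℚ) := in_nat p
  apply (dv_p 3).mul_in
  apply In.mul _ hin
  have i12 : In p (12 : ℚ) := by exact_mod_cast in_nat (p := p) 12
  apply In.sub
  · apply i12.mul
    exact ((((in_two.mul hf).add (inp.mul (hf.pow 2))).sub hg).sub in_one).sub (inp.mul hg)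
  · apply he.mul
    exact (in_three.mul (in_one.add (inp.mul hf))).add
      (((inp.add in_one).mul (inp.pow 2)).mul he)

lemma case_two (h3 : 3 < p) (hmod : p % 3 = 2) :
    Dv p 4 (S p - ((p : ℚ) ^ 3 - p ^ 2 - 3 * p)) := by
  rw [S_closed h3]
  obtain ⟨α, hα, h1⟩ := Tp_rho h3
  obtain ⟨ε, hε, h2⟩ := diff_two h3 hmod
  have hr : (rho p : ℚ) ^ 2 = 3 ^ (p - 1) := by
    have := rho_sq h3 hmod
    exact_mod_cast this
  have inr : In p (rho p : ℚ) := in_int _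
  have hTp : (Pool.Agent.V11304.TM.T 3 3 p : ℚ) = 3 * rho p + p ^ 2 * α := by linarith
  have hT : (Pool.Agent.V11304.TM.T 3 3 (p - 1) : ℚ) = -rho p + p ^ 2 * α - p ^ 3 * ε := by linarith
  have hu : (6 : ℚ) * ((p : ℚ) + 1) * (3 : ℚ) ^ (p - 1) *
      ((6 : ℚ)⁻¹ * ((p : ℚ) + 1)⁻¹ * ((3 : ℚ) ^ (p - 1))⁻¹) = 1 := by
    have hp1 : (p : ℚ) + 1 ≠ 0 := by positivity
    have h9 : (3 : ℚ) ^ (p - 1) ≠ 0 := by positivity
    field_simp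
  have hin := in_unit h3
  set U : ℚ := (6 : ℚ)⁻¹ * ((p : ℚ) + 1)⁻¹ * ((3 : ℚ) ^ (p - 1))⁻¹
  rw [← hr] at hu
  rw [hT, hTp]
  set ρ : ℚ := (rho p : ℚ)
  have key : (p : ℚ) * ((3 * (2 * p + 1) * (3 * ρ + p ^ 2 * α) +
      3 * p * (-ρ + p ^ 2 * α - p ^ 3 * ε)) * (-ρ + p ^ 2 * α - p ^ 3 * ε) -
      (p + 1) * (3 * ρ + p ^ 2 * α) ^ 2) * U - (p ^ 3 - p ^ 2 - 3 * p) =
      (p : ℚ) ^ 4 * ((-6 * ρ ^ 2 - (12 * p + 9) * ρ * ε + (8 * p + 2) * p * α ^ 2 -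
        (12 * p + 3) * p ^ 2 * α * ε + 3 * p ^ 4 * ε ^ 2) * U) := by
    have h6 : ((p : ℚ) ^ 3 - p ^ 2 - 3 * p) =
        (p ^ 3 - p ^ 2 - 3 * p) * (6 * ((p : ℚ) + 1) * ρ ^ 2 * U) := by
      rw [hu, mul_one]
    rw [h6]
    ring
  rw [key]
  have inp : In p (p : ℚ) := in_nat p
  have inn : ∀ n : ℕ, In p (n : ℚ) := fun n => in_nat n
  apply (dv_p 4).mul_in
  apply In.mul _ hin
  have i6 : In p (-6 : ℚ) := by exact_mod_cast in_int (p := p) (-6)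
  have i12 : In p (12 : ℚ) := by exact_mod_cast in_nat (p := p) 12
  have i9 : In p (9 : ℚ) := by exact_mod_cast in_nat (p := p) 9
  have i8 : In p (8 : ℚ) := by exact_mod_cast in_nat (p := p) 8
  apply In.add
  · apply In.sub
    · apply In.add
      · apply In.sub
        · exact i6.mul (inr.pow 2)
        · exact (((i12.mul inp).add i9).mul inr).mul hε
      · exact (((i8.mul inp).add in_two).mul inp).mul (hα.pow 2)
    · exact ((((i12.mul inp).add in_three).mul (inp.pow 2)).mul hα).mul hε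
  · exact (in_three.mul (inp.pow 4)).mul (hε.pow 2)

end

/-- For every prime `p > 3`: `S(p) ≡ 2p² (mod p³)` if `p ≡ 1 (mod 3)`, and
`S(p) ≡ p³ - p² - 3p (mod p⁴)` if `p ≡ 2 (mod 3)`. -/
theorem result (p : ℕ) (hp : p.Prime) (h3 : 3 < p) :
    (p % 3 = 1 → CongZero p 3 (S p - 2 * (p : ℚ) ^ 2)) ∧
    (p % 3 = 2 → CongZero p 4 (S p - ((p : ℚ) ^ 3 - (p : ℚ) ^ 2 - 3 * p))) := by
  have := Fact.mk hp
  exact ⟨fun h => (case_one h3 h).den, fun h => (case_two h3 h).den⟩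

end Pool.Agent.Results.MP_fcf7f4_nt.Full
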